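import Pool.Agent.K7.H47.DM.Fin4
import Pool.Agent.K7.H43.D4_U
import Pool.Agent.K7.H38.D4_BLK
import Pool.Agent.K7.H57.D4_LEAD
import Pool.Agent.K7.H53.D4_P
import Pool.Agent.K7.H23.D4_LIN

/-!
# Dope matrices do not determine the tuple: Q1 is false

Let `s` be a transcendental number. Then for every `m` all the tuples `(s ^ w₁, ..., s ^ w_m)` with distinct natural
numbers `w_i` are equivalent: they have the same sets of dope matrices. For instance
`(1, s, s ^ 2, s ^ 3) ∼ (1, s, s ^ 2, s ^ 4)`. But there are no `a`, `b` and no automorphism `φ` of `ℂ` with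
`λ'ᵢ = a + b φ(λᵢ)` for these two tuples, since the first three equations give `φ(s) = s`, `b = 1`, `a = 0`.

Proof. The sets of the dope matrices are determined by the answers to the following questions (`StLin`): which square
matrices with the rows `k` and the columns `C(k, j) z ^ k` (for the condition `P^{(j)}(z) = 0`, `z ≠ 0`) are singular?
For the points `s ^ w` the determinant is a polynomial in `s`. Its leading coefficient is computed by the optimal matchings of
the columns with the rows: a column `(w, j)` may be matched with a row `k ≥ j`, and has then the exponent `w k`. This is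
the scheduling of unit jobs with deadlines: by an exchange argument the set of the rows matched with the columns of
each `w` is the same for all optimal matchings (`StU`). So the leading coefficient is, up to sign, a product of minors
of Pascal's matrix (`StBlk`), which are positive (`StP`). Hence the determinant is zero only if there is no matching at
all, and this does not depend on the numbers `w_i`.
-/

set_option autoImplicit false

namespace Pool.Agent.Results.MP_344d54_co.GeometricProgressions

open Pool.Agent.K7.H47.DM (Dn Sim)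

theorem exists_transcendental : ∃ s : ℂ, Transcendental ℚ s := by
  by_contra h
  push Not at h
  have h1 : (Set.univ : Set ℂ) ⊆ {x : ℂ | IsAlgebraic ℚ x} := fun x _ => by
    have := h x
    rwa [Transcendental, not_not] at this
  exact not_countable_complex ((Algebraic.countable ℚ ℂ).mono h1)

theorem pow_inj {s : ℂ} (hs : Transcendental ℚ s) : Function.Injective fun n : ℕ => s ^ n := by
  intro a b hab
  by_contra hne
  apply hs
  refine ⟨Polynomial.X ^ a - Polynomial.X ^ b, ?_, ?_⟩
  · intro h
    rw [sub_eq_zero] at h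
    have := congrArg Polynomial.natDegree h
    simp at this
    exact hne this
  · simp only [map_sub, map_pow, Polynomial.aeval_X]
    exact sub_eq_zero.2 hab

theorem not_conj {s : ℂ} (hs : Transcendental ℚ s) :
    ¬ ∃ (a b : ℂ) (φ : ℂ ≃+* ℂ), b ≠ 0 ∧
      ∀ i, (![1, s, s ^ 2, s ^ 4] : Fin 4 → ℂ) i = a + b * φ ((![1, s, s ^ 2, s ^ 3] : Fin 4 → ℂ) i) := by
  rintro ⟨a, b, φ, hb, h⟩
  have h0 := h 0
  have h1 := h 1
  have h2 := h 2
  have h3 := h 3
  simp only [Matrix.cons_val] at h0 h1 h2 h3
  rw [map_one] at h0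
  rw [map_pow] at h2 h3
  set x := φ s with hx
  have hinj := pow_inj hs
  have hs1 : s - 1 ≠ 0 := by
    intro h4
    have h5 : (fun n : ℕ => s ^ n) 1 = (fun n : ℕ => s ^ n) 0 := by
      simp only [pow_one, pow_zero]
      exact sub_eq_zero.1 h4
    exact absurd (hinj h5) (by norm_num)
  have hxs : x = s := by
    have e1 : s - 1 = b * (x - 1) := by linear_combination h1 - h0
    have e2 : (s - 1) * (s + 1) = (s - 1) * (x + 1) := by
      linear_combination h2 - h0 - (x + 1) * e1
    have := mul_left_cancel₀ hs1 e2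
    linear_combination -this
  rw [hxs] at h1 h3
  have e1 : (s - 1) * b = (s - 1) * 1 := by linear_combination h0 - h1
  have hb1 : b = 1 := mul_left_cancel₀ hs1 e1
  rw [hb1] at h0 h3
  have h5 : (fun n : ℕ => s ^ n) 4 = (fun n : ℕ => s ^ n) 3 := by
    simp only
    linear_combination h3 - h0
  exact absurd (hinj h5) (by norm_num)

theorem geom {s : ℂ} (hs : Transcendental ℚ s) (m : ℕ) (w w' : Fin m → ℕ)
    (hw : Function.Injective w) (hw' : Function.Injective w') :
    Sim (fun i => s ^ w i) (fun i => s ^ w' i) := by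
  rcases Nat.eq_zero_or_pos m with hm | hm
  · subst hm
    have : (fun i => s ^ w i) = (fun i => s ^ w' i) := by
      funext i
      exact i.elim0
    rw [this]
    exact fun n => rfl
  · have : NeZero m := ⟨by omega⟩
    exact Pool.Agent.K7.H47.DM4.sim
      (Pool.Agent.K7.H57.D4.lead Pool.Agent.K7.H43.D4.u (Pool.Agent.K7.H38.D4.blk Pool.Agent.K7.H53.D4.p)) Pool.Agent.K7.H23.D4.lin hs w w' hw hw'

theorem example_sim {s : ℂ} (hs : Transcendental ℚ s) :
    Function.Injective (![1, s, s ^ 2, s ^ 3] : Fin 4 → ℂ) ∧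
      Function.Injective (![1, s, s ^ 2, s ^ 4] : Fin 4 → ℂ) ∧
      Sim ![1, s, s ^ 2, s ^ 3] ![1, s, s ^ 2, s ^ 4] := by
  have h1 : (![1, s, s ^ 2, s ^ 3] : Fin 4 → ℂ) = fun i => s ^ (![0, 1, 2, 3] : Fin 4 → ℕ) i := by
    funext i
    fin_cases i <;> simp
  have h2 : (![1, s, s ^ 2, s ^ 4] : Fin 4 → ℂ) = fun i => s ^ (![0, 1, 2, 4] : Fin 4 → ℕ) i := by
    funext i
    fin_cases i <;> simp
  have i1 : Function.Injective (![0, 1, 2, 3] : Fin 4 → ℕ) := by decide
  have i2 : Function.Injective (![0, 1, 2, 4] : Fin 4 → ℕ) := by decide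
  rw [h1, h2]
  exact ⟨(pow_inj hs).comp i1, (pow_inj hs).comp i2, geom hs 4 _ _ i1 i2⟩

/-- **Q1 is false.** (1) There are equivalent tuples which are not related by an affine map and an automorphism of
`ℂ`. (2) An example for every transcendental `s`. (3) All tuples of `m` different powers of a transcendental number are
equivalent. -/
theorem result :
    (¬ ∀ m : ℕ, 1 ≤ m → ∀ Λ Λ' : Fin m → ℂ, Function.Injective Λ → Function.Injective Λ' →
      Sim Λ Λ' → ∃ (a b : ℂ) (φ : ℂ ≃+* ℂ), b ≠ 0 ∧ ∀ i, Λ' i = a + b * φ (Λ i)) ∧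
    (∀ s : ℂ, Transcendental ℚ s →
      Function.Injective (![1, s, s ^ 2, s ^ 3] : Fin 4 → ℂ) ∧
      Function.Injective (![1, s, s ^ 2, s ^ 4] : Fin 4 → ℂ) ∧
      Sim ![1, s, s ^ 2, s ^ 3] ![1, s, s ^ 2, s ^ 4] ∧
      ¬ ∃ (a b : ℂ) (φ : ℂ ≃+* ℂ), b ≠ 0 ∧ ∀ i, (![1, s, s ^ 2, s ^ 4] : Fin 4 → ℂ) i =
        a + b * φ ((![1, s, s ^ 2, s ^ 3] : Fin 4 → ℂ) i)) ∧
    (∀ (m : ℕ) (s : ℂ) (w w' : Fin m → ℕ), Transcendental ℚ s → Function.Injective w →
      Function.Injective w' → Sim (fun i => s ^ w i) (fun i => s ^ w' i)) := by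
  refine ⟨fun H => ?_, fun s hs => ?_, fun m s w w' hs hw hw' => geom hs m w w' hw hw'⟩
  · obtain ⟨s, hs⟩ := exists_transcendental
    obtain ⟨h1, h2, h3⟩ := example_sim hs
    exact not_conj hs (H 4 (by norm_num) _ _ h1 h2 h3)
  · obtain ⟨h1, h2, h3⟩ := example_sim hs
    exact ⟨h1, h2, h3, not_conj hs⟩

end Pool.Agent.Results.MP_344d54_co.GeometricProgressions
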