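import Pool.Agent.K7.H47.DM.Cvx
import Pool.Agent.K7.H56.DM_MIN
import Pool.Agent.K7.H47.DM.AllQ
import Pool.Agent.K7.H16.DM2_PELL
import Pool.Agent.K7.H1.DM2_TRI
import Pool.Agent.K7.H77.DM2_TUP

/-!
# Dope matrices: tuples in real quadratic fields, and radicals

(1) Let `Λ` be a tuple of any length whose points lie, up to an affine map, in a real quadratic field (`InRealQuad`).
Then `Λ ∼ Λ'` implies `λ'ᵢ = a + b φ(λᵢ)` for some `a`, `b ≠ 0` and some automorphism `φ` of `ℂ`: Q1 is true for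
these `Λ` and all `Λ'`.

(2) Let `Λ = (λ₀, λ₁, λ₂)` be a triple of distinct complex numbers and `ratio Λ = (λ₂ - λ₀)/(λ₁ - λ₀)`, the third
point after the first two have been moved to `0` and `1`. The same is true if, for some order of the three points,
this number `z` is

* real with `z ^ N` rational for some `N ≥ 1` (`RealRad`), or
* a root of an irreducible polynomial `X ^ N - r`, `r` rational (`IrrRad`), or
* a root of `a b X ^ 2 - (a + b - 1) c X + c (c - 1)` with integers `a, b, c ≥ 2`, `a ≠ b` (`ThreeTerm`; infinitely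
  many imaginary quadratic irrationals, for instance for `a = 5`, `b = 6`, `c ≥ 7`).

(3) For arbitrary equivalent triples the ratios have the same rational powers.

(4) Equivalent tuples of any length satisfy the same relations `∑ kᵢ λᵢ = (∑ kᵢ) λⱼ` with natural numbers `kᵢ`.

The proof. (i) `P = X ^ t (c₀ + c₁ X + c₂ X ^ 2)` is determined up to a factor by two zeros of its derivatives, of the
orders `t + 2 - a` and `t + 2 - b`, at `1`, and then the derivative of order `t + 2 - c` vanishes at `x ≠ 0` iff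
`a b x ^ 2 - (a + b - 1) c x + c (c - 1) = 0`. For a given real quadratic irrational `x` with conjugate `x'`,
`x + x' ≥ 2`, `x x' > 0`, integers `a`, `b`, `c` for which this is the equation of `x` are found with Pell's equation. The other
cases are reduced to this one by `x ↦ 1 / x`, `x ↦ 1 - x`, except those in which the conjugates are on different
sides of `0` or `1`, where `X ^ a (X - 1) ^ b (X - x) ^ c (X - u)` with a vanishing derivative of order `a + 1` at `0` and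
one of order `n - 1` at `1` is used in the same way. For longer tuples the triples `(0, 1, x)`, `(0, 1, y)` and
`(0, x, y)` show that all the points are conjugated by the same automorphism. (ii) `X ^ k (X ^ N - 1) ^ m` is determined up
to a factor by its degree, its support and the order of its zero at `1`; its derivative vanishes at `x` iff
`x ^ N = k / (k + m N)` (or `x ^ N = 1`, or `x = 0`). So the zero patterns detect `x ^ N = r` for `0 < r < 1`; the
symmetry `x ↦ 1 / x` gives `r > 1`, and a missing coefficient of `(X ^ N - 1) ^ b (X ^ N - x ^ N) ^ c` gives `r < 0`.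
(iii) The last derivative but one of `∏ (X - λᵢ) ^ kᵢ` vanishes at the centroid of the roots.
-/

set_option autoImplicit false

open Polynomial

namespace Pool.Agent.Results.MP_344d54_co.RadicalsAndRealQuadratics

open Pool.Agent.K7.H47.DM

/-- `z` is real and one of its powers is rational -/
def RealRad (z : ℂ) : Prop := ∃ (t : ℝ) (N : ℕ) (r : ℚ), z = t ∧ 1 ≤ N ∧ t ^ N = r

/-- `z` is a root of an irreducible polynomial `X ^ N - r` over the rational numbers -/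
def IrrRad (z : ℂ) : Prop :=
  ∃ (N : ℕ) (r : ℚ), 1 ≤ N ∧ z ^ N = r ∧ Irreducible (X ^ N - C r : ℚ[X])

/-- `z` is a root of `a b X ^ 2 - (a + b - 1) c X + c (c - 1)` for some integers `a, b, c ≥ 2`, `a ≠ b` -/
def ThreeTerm (z : ℂ) : Prop := ∃ a b c : ℕ, 2 ≤ a ∧ 2 ≤ b ∧ a ≠ b ∧ 2 ≤ c ∧
  (a : ℂ) * b * z ^ 2 - (a + b - 1) * c * z + c * (c - 1) = 0

/-- after a permutation of the three points the third point, in the coordinate in which the first
two are `0` and `1`, is of one of the three kinds -/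
def Special (Λ : Fin 3 → ℂ) : Prop := ∃ e : Equiv.Perm (Fin 3),
  RealRad (ratio (Λ ∘ e)) ∨ IrrRad (ratio (Λ ∘ e)) ∨ ThreeTerm (ratio (Λ ∘ e))

theorem powers {Λ Λ' : Fin 3 → ℂ} (hΛ : Function.Injective Λ) (hΛ' : Function.Injective Λ')
    (h : Sim Λ Λ') (e : Equiv.Perm (Fin 3)) :
    Tr (ratio (Λ ∘ e)) (ratio (Λ' ∘ e)) ∧ Tr (ratio (Λ' ∘ e)) (ratio (Λ ∘ e)) := by
  have h1 := ratio_ne (hΛ.comp e.injective)
  have h2 := ratio_ne (hΛ'.comp e.injective)
  exact ⟨tr_of_trG h1.1 h2.1 (trG_perm (trG_of_sim h) e),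
    tr_of_trG h2.1 h1.1 (trG_perm (trG_of_sim fun n => (h n).symm) e)⟩

theorem pow_iff {Λ Λ' : Fin 3 → ℂ} (hΛ : Function.Injective Λ) (hΛ' : Function.Injective Λ')
    (h : Sim Λ Λ') (e : Equiv.Perm (Fin 3)) {N : ℕ} (hN : 1 ≤ N) (r : ℚ) :
    ratio (Λ ∘ e) ^ N = r ↔ ratio (Λ' ∘ e) ^ N = r := by
  obtain ⟨h3, h4⟩ := powers hΛ hΛ' h e
  obtain ⟨-, h5, h6⟩ := ratio_ne (hΛ.comp e.injective)
  obtain ⟨-, h7, h8⟩ := ratio_ne (hΛ'.comp e.injective)
  exact ⟨Pool.Agent.K7.H47.DM.pow Pool.Agent.K7.H99.DM.sym _ _ N r h5 h6 h7 h8 hN h3 h4,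
    Pool.Agent.K7.H47.DM.pow Pool.Agent.K7.H99.DM.sym _ _ N r h7 h8 h5 h6 hN h4 h3⟩

/-- the minimal polynomials agree if `z` is a root of `X ^ N - r` and this is irreducible -/
theorem min_eq {z w : ℂ} {N : ℕ} {r : ℚ} (hirr : Irreducible (X ^ N - C r : ℚ[X])) (hN : 1 ≤ N)
    (hz : z ^ N = r) (hw : w ^ N = r) : IsIntegral ℚ z ∧ minpoly ℚ z = minpoly ℚ w := by
  have hm : (X ^ N - C r : ℚ[X]).Monic := monic_X_pow_sub_C r (by omega)
  have ev : ∀ v : ℂ, v ^ N = r → aeval v (X ^ N - C r : ℚ[X]) = 0 := by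
    intro v hv
    rw [map_sub, map_pow, aeval_X, aeval_C, hv, eq_ratCast, sub_self]
  refine ⟨⟨_, hm, by rw [← aeval_def]; exact ev z hz⟩, ?_⟩
  rw [← minpoly.eq_of_irreducible_of_monic hirr (ev z hz) hm,
    ← minpoly.eq_of_irreducible_of_monic hirr (ev w hw) hm]

/-- a root of a polynomial of the third kind is rational, or the discriminant is not a square -/
theorem three_rat {z : ℂ} {a b c : ℕ} (ha : 2 ≤ a) (hb : 2 ≤ b)
    (h : (a : ℂ) * b * z ^ 2 - (a + b - 1) * c * z + c * (c - 1) = 0) :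
    RealRad z ∨ ¬ IsSquare ((-(((a : ℤ) + b - 1) * c)) ^ 2 - 4 * ((a : ℤ) * b) * (c * (c - 1))) := by
  by_contra hcon
  push Not at hcon
  obtain ⟨h1, d, hd⟩ := hcon
  apply h1
  have hd' : ((a : ℂ) + b - 1) ^ 2 * c ^ 2 - 4 * (a * b) * (c * (c - 1)) = d * d := by
    have : (((-(((a : ℤ) + b - 1) * c)) ^ 2 - 4 * ((a : ℤ) * b) * (c * (c - 1)) : ℤ) : ℂ) =
        ((d * d : ℤ) : ℂ) := by rw [hd]
    push_cast at this
    linear_combination this
  have hab : (2 : ℂ) * (a * b) ≠ 0 := by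
    refine mul_ne_zero two_ne_zero (mul_ne_zero ?_ ?_)
    · exact_mod_cast (by omega : a ≠ 0)
    · exact_mod_cast (by omega : b ≠ 0)
  have h2 : (2 * ((a : ℂ) * b) * z - (a + b - 1) * c - d) *
      (2 * ((a : ℂ) * b) * z - (a + b - 1) * c + d) = 0 := by
    linear_combination 4 * ((a : ℂ) * b) * h + hd'
  have h3 : ∃ r : ℚ, z = r := by
    rcases mul_eq_zero.1 h2 with h3 | h3
    · refine ⟨(((a : ℚ) + b - 1) * c + d) / (2 * (a * b)), ?_⟩
      push_cast
      rw [eq_div_iff hab]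
      linear_combination h3
    · refine ⟨(((a : ℚ) + b - 1) * c - d) / (2 * (a * b)), ?_⟩
      push_cast
      rw [eq_div_iff hab]
      linear_combination h3
  obtain ⟨r, hr⟩ := h3
  exact ⟨(r : ℝ), 1, r, by rw [hr]; push_cast; rfl, le_rfl, by rw [pow_one]⟩

/-- for these ratios the other one is a conjugate -/
theorem conj_of {Λ Λ' : Fin 3 → ℂ} (hΛ : Function.Injective Λ) (hΛ' : Function.Injective Λ')
    (h : Sim Λ Λ') (e : Equiv.Perm (Fin 3))
    (hs : RealRad (ratio (Λ ∘ e)) ∨ IrrRad (ratio (Λ ∘ e)) ∨ ThreeTerm (ratio (Λ ∘ e))) :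
    ∃ φ : ℂ ≃+* ℂ, φ (ratio (Λ ∘ e)) = ratio (Λ' ∘ e) := by
  obtain ⟨h3, h4⟩ := powers hΛ hΛ' h e
  obtain ⟨-, h5, h6⟩ := ratio_ne (hΛ.comp e.injective)
  obtain ⟨-, h7, h8⟩ := ratio_ne (hΛ'.comp e.injective)
  have hs' : RealRad (ratio (Λ ∘ e)) ∨ IrrRad (ratio (Λ ∘ e)) ∨
      ∃ p q s : ℤ, p ≠ 0 ∧ ¬ IsSquare (q ^ 2 - 4 * p * s) ∧
        (p : ℂ) * ratio (Λ ∘ e) ^ 2 + q * ratio (Λ ∘ e) + s = 0 ∧
        (p : ℂ) * ratio (Λ' ∘ e) ^ 2 + q * ratio (Λ' ∘ e) + s = 0 := by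
    rcases hs with hs | hs | ⟨a, b, c, ha, hb, hab, hc, hz⟩
    · exact Or.inl hs
    · exact Or.inr (Or.inl hs)
    rcases three_rat ha hb hz with hr | hr
    · exact Or.inl hr
    · refine Or.inr (Or.inr ⟨(a : ℤ) * b, -(((a : ℤ) + b - 1) * c), (c : ℤ) * (c - 1), ?_, hr, ?_, ?_⟩)
      · exact mul_ne_zero (by omega) (by omega)
      · push_cast
        linear_combination hz
      · have := core3 a b c _ _ ha hb hab hc h5 h7 h3 hz
        push_cast
        linear_combination this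
  rcases hs' with ⟨t, N, r, hz, hN, ht⟩ | ⟨N, r, hN, hz, hirr⟩ | ⟨p, q, s, hp, hd, hz, hw⟩
  · have ht0 : t ≠ 0 := by
      rintro rfl
      exact h5 (by rw [hz]; simp)
    obtain ⟨n, s, hn, hs, hint, hmin⟩ := Pool.Agent.K7.H56.DM.minR t N r ht0 hN ht
    have hirr : Irreducible (X ^ n - C s : ℚ[X]) := by
      rw [← hmin]
      exact minpoly.irreducible hint
    have h9 : ratio (Λ ∘ e) ^ n = s := by rw [hz]; exact hs
    have h10 := (pow_iff hΛ hΛ' h e hn s).1 h9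
    obtain ⟨h11, h12⟩ := min_eq hirr hn h9 h10
    exact aut h11 h12
  · have h10 := (pow_iff hΛ hΛ' h e hN r).1 hz
    obtain ⟨h11, h12⟩ := min_eq hirr hN hz h10
    exact aut h11 h12
  · obtain ⟨h11, h12⟩ := Pool.Agent.K7.H56.DM.minQ _ _ p q s hp hd hz hw
    exact aut h11 h12

theorem result :
    (∀ (m : ℕ) (Λ Λ' : Fin m → ℂ), Function.Injective Λ → Function.Injective Λ' → Sim Λ Λ' →
      InRealQuad Λ → ∃ (a b : ℂ) (φ : ℂ ≃+* ℂ), b ≠ 0 ∧ ∀ i, Λ' i = a + b * φ (Λ i)) ∧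
    (∀ Λ Λ' : Fin 3 → ℂ, Function.Injective Λ → Function.Injective Λ' → Sim Λ Λ' → Special Λ →
      ∃ (a b : ℂ) (φ : ℂ ≃+* ℂ), b ≠ 0 ∧ ∀ i, Λ' i = a + b * φ (Λ i)) ∧
    (∀ Λ Λ' : Fin 3 → ℂ, Function.Injective Λ → Function.Injective Λ' → Sim Λ Λ' →
      ∀ (N : ℕ) (r : ℚ), 1 ≤ N → (ratio Λ ^ N = r ↔ ratio Λ' ^ N = r)) ∧
    (∀ (m : ℕ) (Λ Λ' : Fin m → ℂ), Function.Injective Λ → Function.Injective Λ' → Sim Λ Λ' →
      ∀ (k : Fin m → ℕ) (j : Fin m), (∑ i, (k i : ℂ) * Λ i = (∑ i, k i : ℕ) * Λ j ↔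
        ∑ i, (k i : ℂ) * Λ' i = (∑ i, k i : ℕ) * Λ' j)) := by
  refine ⟨Pool.Agent.K7.H77.DM2.tup (Pool.Agent.K7.H1.DM2.tri (allq Pool.Agent.K7.H16.DM2.pell)), ?_,
    fun Λ Λ' hΛ hΛ' h N r hN => pow_iff hΛ hΛ' h 1 hN r, fun m Λ Λ' hΛ hΛ' h k j =>
    ⟨cvx hΛ' (trG_of_sim h) k j, cvx hΛ (trG_of_sim fun n => (h n).symm) k j⟩⟩
  rintro Λ Λ' hΛ hΛ' h ⟨e, he⟩
  obtain ⟨φ, hφ⟩ := conj_of hΛ hΛ' h e he
  obtain ⟨h1, -, -⟩ := ratio_ne (hΛ.comp e.injective)
  obtain ⟨h2, -, -⟩ := ratio_ne (hΛ'.comp e.injective)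
  set M := Λ ∘ e with hM
  set M' := Λ' ∘ e with hM'
  have h3 : φ (M 1) - φ (M 0) ≠ 0 := by
    rw [← map_sub]
    exact (map_ne_zero φ).2 h1
  have key : ∀ i, M' i = (M' 0 - (M' 1 - M' 0) / (φ (M 1) - φ (M 0)) * φ (M 0)) +
      (M' 1 - M' 0) / (φ (M 1) - φ (M 0)) * φ (M i) := by
    have e2 : M' 2 = (M' 0 - (M' 1 - M' 0) / (φ (M 1) - φ (M 0)) * φ (M 0)) +
        (M' 1 - M' 0) / (φ (M 1) - φ (M 0)) * φ (M 2) := by
      have h4 : (φ (M 2) - φ (M 0)) / (φ (M 1) - φ (M 0)) = (M' 2 - M' 0) / (M' 1 - M' 0) := by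
        have := hφ
        unfold ratio at this
        rwa [map_div₀, map_sub, map_sub] at this
      have h5 : (M' 1 - M' 0) * ((φ (M 2) - φ (M 0)) / (φ (M 1) - φ (M 0))) = M' 2 - M' 0 := by
        rw [h4, mul_div_cancel₀ _ h2]
      have h6 : (M' 1 - M' 0) / (φ (M 1) - φ (M 0)) * (φ (M 2) - φ (M 0)) = M' 2 - M' 0 := by
        rw [← h5]
        ring
      linear_combination -h6
    have e1 : M' 1 = (M' 0 - (M' 1 - M' 0) / (φ (M 1) - φ (M 0)) * φ (M 0)) +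
        (M' 1 - M' 0) / (φ (M 1) - φ (M 0)) * φ (M 1) := by
      have h6 : (M' 1 - M' 0) / (φ (M 1) - φ (M 0)) * (φ (M 1) - φ (M 0)) = M' 1 - M' 0 :=
        div_mul_cancel₀ _ h3
      linear_combination -h6
    have e0 : M' 0 = (M' 0 - (M' 1 - M' 0) / (φ (M 1) - φ (M 0)) * φ (M 0)) +
        (M' 1 - M' 0) / (φ (M 1) - φ (M 0)) * φ (M 0) := by ring
    intro i
    fin_cases i
    · exact e0
    · exact e1
    · exact e2
  refine ⟨M' 0 - (M' 1 - M' 0) / (φ (M 1) - φ (M 0)) * φ (M 0),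
    (M' 1 - M' 0) / (φ (M 1) - φ (M 0)), φ, div_ne_zero h2 h3, fun i => ?_⟩
  have h9 := key (e.symm i)
  have h10 : M' (e.symm i) = Λ' i := by
    show Λ' (e (e.symm i)) = Λ' i
    rw [e.apply_symm_apply]
  have h11 : M (e.symm i) = Λ i := by
    show Λ (e (e.symm i)) = Λ i
    rw [e.apply_symm_apply]
  rw [h10, h11] at h9
  exact h9

end Pool.Agent.Results.MP_344d54_co.RadicalsAndRealQuadratics
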